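import Pool.Agent.Helper18.RD.Stmts

set_option autoImplicit false

namespace Pool.Agent.Helper18.RD

open Finset

theorem HH_le94 {N : ℕ} (hN : 1 ≤ N) : HH N ≤ 3 * (1 + Real.log N) := by
  have h16 : Real.log 16 ≤ 3 := by
    have : (16 : ℝ) = 2 ^ (4 : ℕ) := by norm_num
    rw [this, Real.log_pow]
    have := Real.log_two_lt_d9
    push_cast
    linarith
  unfold HH
  have := Real.log_nonneg (show (1 : ℝ) ≤ N by exact_mod_cast hN)
  linarith

theorem HH_nn94 {N : ℕ} (hN : 1 ≤ N) : 0 ≤ HH N := by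
  unfold HH
  have := Real.log_nonneg (show (1 : ℝ) ≤ N by exact_mod_cast hN)
  have : 0 ≤ Real.log 16 := Real.log_nonneg (by norm_num)
  linarith

theorem log_le_rpow94 {x ε : ℝ} (hx : 1 ≤ x) (hε : 0 < ε) :
    1 + Real.log x ≤ (1 + 1 / ε) * x ^ ε := by
  have h1 : Real.log x ≤ x ^ ε / ε := Real.log_le_rpow_div (by linarith) hε
  have h2 : (1 : ℝ) ≤ x ^ ε := Real.one_le_rpow hx hε.le
  have : x ^ ε / ε = 1 / ε * x ^ ε := by ring
  nlinarith

open Classical in
theorem st_BAD (hW : ST_W) (hBL : ST_BL) : ST_BAD := by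
  intro c0 ε hc0 hε
  obtain ⟨K, hK⟩ : ∃ K : ℝ, K = 4 ^ 40 := ⟨_, rfl⟩
  have hK1 : (1 : ℝ) ≤ K := by rw [hK]; norm_num
  have hK0 : (0 : ℝ) < K := by linarith
  obtain ⟨M, hM⟩ : ∃ M : ℝ, M = 3 * 2 ^ 41 * (24 * K + 12) / c0 := ⟨_, rfl⟩
  have hM0 : 0 < M := by rw [hM]; positivity
  obtain ⟨C1, hC1⟩ : ∃ C1 : ℝ, C1 = 1 + 1 / ε := ⟨_, rfl⟩
  have hC10 : 0 < C1 := by rw [hC1]; positivity
  obtain ⟨C, hC⟩ : ∃ C : ℝ, C = 2 + 3 * 2 ^ 41 * 8 * K * C1 / c0 + (81 * M) ^ 2 +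
    (81 * (240 / c0)) ^ 2 := ⟨_, rfl⟩
  have ha1 : 0 ≤ 3 * 2 ^ 41 * 8 * K * C1 / c0 := by positivity
  have ha2 : 0 ≤ (81 * M) ^ 2 := by positivity
  have ha3 : 0 ≤ (81 * (240 / c0)) ^ 2 := by positivity
  have hC2 : 2 ≤ C := by rw [hC]; linarith
  have hCa : 3 * 2 ^ 41 * 8 * K * C1 / c0 ≤ C := by rw [hC]; linarith
  have hCb : (81 * M) ^ 2 ≤ C := by rw [hC]; linarith
  have hCc : (81 * (240 / c0)) ^ 2 ≤ C := by rw [hC]; linarith
  refine ⟨C, by linarith, ?_⟩
  intro N q1 q2 P S e c d k w hN hq1 hq2 hcop hD hNP hPN hlq hS hPP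
  have hNr : (1 : ℝ) ≤ N := by exact_mod_cast hN
  have hP1 : 1 ≤ P := by
    rcases Nat.eq_zero_or_pos P with h | h
    · rw [h] at hNP; simp at hNP; omega
    · exact h
  have hPr : (1 : ℝ) ≤ P := by exact_mod_cast hP1
  have hNe : (1 : ℝ) ≤ (N : ℝ) ^ ε := Real.one_le_rpow hNr hε.le
  have hL0 : 0 ≤ Real.log N := Real.log_nonneg hNr
  set L : ℝ := 1 + Real.log N with hL
  have hL1 : 1 ≤ L := by rw [hL]; linarith
  have hω : (0 : ℝ) ≤ (q2.primeFactors.card : ℝ) := Nat.cast_nonneg _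
  have hNeP : 1 ≤ (N : ℝ) ^ ε * P := one_le_mul_of_one_le_of_one_le hNe hPr
  have hSC : C * ((N : ℝ) ^ ε * P) ≤ S.card := by
    have h0 : 0 ≤ C * (q2.primeFactors.card : ℝ) := mul_nonneg (by linarith) hω
    rw [mul_add] at hS
    linarith
  have hS1 : (1 : ℝ) ≤ S.card := by
    have h0 : C * 1 ≤ C * ((N : ℝ) ^ ε * P) := mul_le_mul_of_nonneg_left hNeP (by linarith)
    linarith
  have hSN : (S.card : ℝ) ≤ N := by
    have := card_le_card hD.sub
    rw [card_range] at this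
    exact_mod_cast this
  -- N is large
  have hPsq : Real.sqrt N ≤ P := by
    apply Real.sqrt_le_iff.2 ⟨by linarith, by exact_mod_cast hNP⟩
  have hsN0 : 0 < Real.sqrt N := Real.sqrt_pos.2 (by linarith)
  have hsN : C ≤ Real.sqrt N := by
    have h1 : C * Real.sqrt N ≤ N := by
      calc C * Real.sqrt N ≤ C * ((N : ℝ) ^ ε * P) := by
            apply mul_le_mul_of_nonneg_left _ (by linarith)
            calc Real.sqrt N ≤ P := hPsq
              _ = 1 * P := (one_mul _).symm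
              _ ≤ (N : ℝ) ^ ε * P := mul_le_mul_of_nonneg_right hNe (by linarith)
        _ ≤ S.card := hSC
        _ ≤ N := hSN
    have h2 : Real.sqrt N * Real.sqrt N = (N : ℝ) := Real.mul_self_sqrt (by linarith)
    exact le_of_mul_le_mul_right (h1.trans h2.ge) hsN0
  -- logarithmic bounds
  have hlog : ∀ A : ℝ, 0 < A → (81 * A) ^ 2 ≤ C → A * L ^ 2 ≤ P := by
    intro A hA hAC
    have h1 : L ≤ 9 * (N : ℝ) ^ (1 / 8 : ℝ) := by
      have := log_le_rpow94 hNr (show (0 : ℝ) < 1 / 8 by norm_num)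
      norm_num at this
      rw [hL]; norm_num; linarith
    have h2 : L ^ 2 ≤ 81 * (N : ℝ) ^ (1 / 4 : ℝ) := by
      have h3 : ((N : ℝ) ^ (1 / 8 : ℝ)) ^ 2 = (N : ℝ) ^ (1 / 4 : ℝ) := by
        rw [← Real.rpow_natCast, ← Real.rpow_mul (by linarith)]; norm_num
      calc L ^ 2 ≤ (9 * (N : ℝ) ^ (1 / 8 : ℝ)) ^ 2 := by
            apply pow_le_pow_left₀ (by linarith) h1
        _ = 81 * ((N : ℝ) ^ (1 / 8 : ℝ)) ^ 2 := by ring
        _ = _ := by rw [h3]
    have h4 : 81 * A ≤ (N : ℝ) ^ (1 / 4 : ℝ) := by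
      have h5 : (81 * A) ^ 2 ≤ ((N : ℝ) ^ (1 / 4 : ℝ)) ^ 2 := by
        have h6 : ((N : ℝ) ^ (1 / 4 : ℝ)) ^ 2 = Real.sqrt N := by
          rw [← Real.rpow_natCast, ← Real.rpow_mul (by linarith), Real.sqrt_eq_rpow]; norm_num
        rw [h6]; linarith
      exact le_of_sq_le_sq h5 (by positivity)
    have h7 : ((N : ℝ) ^ (1 / 4 : ℝ)) * ((N : ℝ) ^ (1 / 4 : ℝ)) = Real.sqrt N := by
      rw [← Real.rpow_add (by linarith), Real.sqrt_eq_rpow]; norm_num
    have h8 : 0 ≤ (N : ℝ) ^ (1 / 4 : ℝ) := by positivity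
    calc A * L ^ 2 ≤ A * (81 * (N : ℝ) ^ (1 / 4 : ℝ)) := mul_le_mul_of_nonneg_left h2 hA.le
      _ = (81 * A) * (N : ℝ) ^ (1 / 4 : ℝ) := by ring
      _ ≤ (N : ℝ) ^ (1 / 4 : ℝ) * (N : ℝ) ^ (1 / 4 : ℝ) := mul_le_mul_of_nonneg_right h4 h8
      _ = Real.sqrt N := h7
      _ ≤ P := hPsq
  have hHH : HH N ≤ 3 * L := HH_le94 hN
  have hHH0 : 0 ≤ HH N := HH_nn94 hN
  -- total weight
  set W : ℝ := w + ∑ l ∈ OP (q1 * q2), wt (q1 * q2) l with hWdef
  have hWle : W ≤ 2 * (P : ℝ) ^ 2 + 2 * Real.sqrt S.card * HH N := by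
    have h1 : 2 * (q2.primeFactors.card + 1) ≤ S.card := by
      have : (2 * (q2.primeFactors.card + 1) : ℝ) ≤ S.card := by
        rw [mul_add] at hS
        have h0 : C * 1 ≤ C * ((N : ℝ) ^ ε * P) := mul_le_mul_of_nonneg_left hNeP (by linarith)
        have h0' : 2 * (q2.primeFactors.card : ℝ) ≤ C * (q2.primeFactors.card : ℝ) :=
          mul_le_mul_of_nonneg_right hC2 hω
        linarith
      exact_mod_cast this
    have := hW N q1 q2 S e c d k w hN hq1 hq2 hcop hD h1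
    linarith
  have hW0 : 0 ≤ W := by
    have h1 : 0 ≤ w := hD.w0
    have h2 : 0 ≤ ∑ l ∈ OP (q1 * q2), wt (q1 * q2) l := by
      apply sum_nonneg
      intro l hl
      have : l ∈ (q1 * q2).primeFactors := mem_of_mem_erase hl
      have hlp := Nat.prime_of_mem_primeFactors this
      unfold wt pw
      apply Real.log_nonneg
      exact_mod_cast Nat.one_le_pow _ _ hlp.pos
    linarith
  have hsS1 : 1 ≤ Real.sqrt S.card := Real.one_le_sqrt.2 hS1
  have hS0 : (0 : ℝ) < S.card := by linarith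
  have hWS : W / S.card ≤ 2 * P / (C * (N : ℝ) ^ ε) + 2 * HH N := by
    have h1 : W / S.card ≤ (2 * (P : ℝ) ^ 2 + 2 * Real.sqrt S.card * HH N) / S.card :=
      div_le_div_of_nonneg_right hWle hS0.le
    have h2 : 2 * (P : ℝ) ^ 2 / S.card ≤ 2 * P / (C * (N : ℝ) ^ ε) := by
      rw [div_le_div_iff₀ hS0 (by positivity)]
      have h0 := mul_le_mul_of_nonneg_left hSC (show (0 : ℝ) ≤ 2 * P by linarith)
      calc 2 * (P : ℝ) ^ 2 * (C * (N : ℝ) ^ ε) = 2 * P * (C * ((N : ℝ) ^ ε * P)) := by ring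
        _ ≤ 2 * P * S.card := h0
    have h3 : 2 * Real.sqrt S.card * HH N / S.card ≤ 2 * HH N := by
      rw [div_le_iff₀ hS0]
      have h4 : Real.sqrt S.card * Real.sqrt S.card = S.card := Real.mul_self_sqrt hS0.le
      have h5 : Real.sqrt S.card ≤ S.card := by
        calc Real.sqrt S.card = Real.sqrt S.card * 1 := (mul_one _).symm
          _ ≤ Real.sqrt S.card * Real.sqrt S.card :=
            mul_le_mul_of_nonneg_left hsS1 (Real.sqrt_nonneg _)
          _ = S.card := h4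
      calc 2 * Real.sqrt S.card * HH N = 2 * HH N * Real.sqrt S.card := by ring
        _ ≤ 2 * HH N * S.card := mul_le_mul_of_nonneg_left h5 (by linarith)
    calc W / S.card ≤ (2 * (P : ℝ) ^ 2 + 2 * Real.sqrt S.card * HH N) / S.card := h1
      _ = 2 * (P : ℝ) ^ 2 / S.card + 2 * Real.sqrt S.card * HH N / S.card := add_div _ _ _
      _ ≤ _ := add_le_add h2 h3
  set B : ℝ := 4 * (K * (2 * P / (C * (N : ℝ) ^ ε) + 2 * HH N) + HH N) with hB
  have hB0 : 0 ≤ B := by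
    rw [hB]; positivity
  refine ⟨⌊B⌋₊, ?_, ?_⟩
  · have hb : (⌊B⌋₊ : ℝ) ≤ B := Nat.floor_le hB0
    have hmain : 2 ^ 41 * B + 80 ≤ c0 * P / L := by
      have t1 : 2 ^ 41 * (4 * (K * (2 * P / (C * (N : ℝ) ^ ε)))) ≤ c0 * P / L / 3 := by
        have h1 : L ≤ C1 * (N : ℝ) ^ ε := by rw [hC1]; exact log_le_rpow94 hNr hε
        have h2 : 3 * 2 ^ 41 * 8 * K * C1 ≤ C * c0 := (div_le_iff₀ hc0).1 hCa
        rw [div_div, le_div_iff₀ (by positivity)]
        have h3 : 2 ^ 41 * (4 * (K * (2 * P / (C * (N : ℝ) ^ ε)))) * (L * 3) =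
            (3 * 2 ^ 41 * 8 * K * L * P) / (C * (N : ℝ) ^ ε) := by ring
        rw [h3, div_le_iff₀ (by positivity)]
        have h4 : 3 * 2 ^ 41 * 8 * K * L ≤ 3 * 2 ^ 41 * 8 * K * (C1 * (N : ℝ) ^ ε) :=
          mul_le_mul_of_nonneg_left h1 (by positivity)
        have h5 : 3 * 2 ^ 41 * 8 * K * (C1 * (N : ℝ) ^ ε) ≤ C * c0 * (N : ℝ) ^ ε := by
          have := mul_le_mul_of_nonneg_right h2 (show (0 : ℝ) ≤ (N : ℝ) ^ ε by positivity)
          linarith
        have h6 := mul_le_mul_of_nonneg_right (h4.trans h5) (show (0 : ℝ) ≤ P by positivity)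
        linarith
      have t2 : 2 ^ 41 * ((8 * K + 4) * HH N) ≤ c0 * P / L / 3 := by
        have h1 := hlog M hM0 hCb
        rw [div_div, le_div_iff₀ (by positivity)]
        have h2 : 2 ^ 41 * ((8 * K + 4) * HH N) * (L * 3) ≤
            2 ^ 41 * ((8 * K + 4) * (3 * L)) * (L * 3) := by
          apply mul_le_mul_of_nonneg_right _ (by positivity)
          apply mul_le_mul_of_nonneg_left _ (by positivity)
          apply mul_le_mul_of_nonneg_left hHH (by positivity)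
        have h3 : 2 ^ 41 * ((8 * K + 4) * (3 * L)) * (L * 3) = c0 * (M * L ^ 2) := by
          rw [hM]; field_simp; ring
        rw [h3] at h2
        have := mul_le_mul_of_nonneg_left h1 hc0.le
        linarith
      have t3 : 80 ≤ c0 * P / L / 3 := by
        have h1 := hlog (240 / c0) (by positivity) hCc
        rw [div_div, le_div_iff₀ (by positivity)]
        have h2 : c0 * (240 / c0 * L ^ 2) = 240 * L ^ 2 := by field_simp
        have h3 := mul_le_mul_of_nonneg_left h1 hc0.le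
        rw [h2] at h3
        have h4 : L * 1 ≤ L * L := mul_le_mul_of_nonneg_left hL1 (by linarith)
        have h5 : L ^ 2 = L * L := sq L
        rw [h5] at h3
        linarith
      have h5 : 2 ^ 41 * B = 2 ^ 41 * (4 * (K * (2 * P / (C * (N : ℝ) ^ ε)))) +
          2 ^ 41 * ((8 * K + 4) * HH N) := by rw [hB]; ring
      rw [h5]
      linarith
    have h6 : (2 * (2 ^ 40 * (⌊B⌋₊ : ℝ) + 40)) ≤ ((PP (q1 * q2) P).card : ℝ) := by
      calc (2 * (2 ^ 40 * (⌊B⌋₊ : ℝ) + 40)) = 2 ^ 41 * (⌊B⌋₊ : ℝ) + 80 := by ring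
        _ ≤ 2 ^ 41 * B + 80 := by
            have := mul_le_mul_of_nonneg_left hb (show (0 : ℝ) ≤ 2 ^ 41 by positivity)
            linarith
        _ ≤ c0 * P / L := hmain
        _ ≤ _ := hPP
    exact_mod_cast h6
  · intro S' hS'S hS'
    have hS'r : (S.card : ℝ) ≤ K * S'.card := by
      rw [hK]; exact_mod_cast hS'
    have hS'0 : (0 : ℝ) < S'.card := by
      by_contra h
      have h1 : (S'.card : ℝ) ≤ 0 := not_lt.1 h
      have h2 : K * (S'.card : ℝ) ≤ K * 0 := mul_le_mul_of_nonneg_left h1 (by linarith)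
      linarith
    have hne : S'.Nonempty := card_pos.1 (by exact_mod_cast hS'0)
    have h1 := hBL N (q1 * q2) S e c d k w hN hD S' hS'S hne
    have h2 : W / S'.card ≤ K * (W / S.card) := by
      rw [← mul_div_assoc, div_le_div_iff₀ hS'0 hS0]
      calc W * S.card ≤ W * (K * S'.card) := mul_le_mul_of_nonneg_left hS'r hW0
        _ = K * W * S'.card := by ring
    have h3 : ((PP (q1 * q2) P).filter (fun p => ¬ Bal e S' p)).card ≤
        ((OP (q1 * q2)).filter (fun p => ¬ Bal e S' p)).card :=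
      card_le_card (filter_subset_filter _ (filter_subset _ _))
    apply Nat.le_floor
    have h4 : (((PP (q1 * q2) P).filter (fun p => ¬ Bal e S' p)).card : ℝ) ≤
        4 * (W / S'.card + HH N) := le_trans (by exact_mod_cast h3) h1
    refine h4.trans ?_
    rw [hB]
    have h5 : K * (W / S.card) ≤ K * (2 * P / (C * (N : ℝ) ^ ε) + 2 * HH N) :=
      mul_le_mul_of_nonneg_left hWS (by linarith)
    linarith

end Pool.Agent.Helper18.RD
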